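import Pool.Agent.Run7.h696.CP.Iface

/-!
# Project CP (helper696), piece HLS (helper160): the system of the hyperlogarithms

Adapted from `Run7/h160/HP/PLS.lean`.
-/

set_option autoImplicit false

open PowerSeries Matrix
open Pool.Agent.Y113 hiding Bm
open Pool.Agent.Y120.GF Pool.Agent.Y120.GH Pool.Agent.Y119.HZ
open Pool.Agent.Y119.HY (cm E Hf Yf Vr)
open Pool.Agent.Run7.h225.HG Pool.Agent.Run7.h696.CF Pool.Agent.Run7.h696.CP
open Pool.Agent.Y119.ML (In const_In geo geo_mul)

namespace Pool.Agent.Run7.h160.CP

variable {m : ℕ} (a : Fin m → ℤ)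

/-- the letters -/
abbrev Lt (m : ℕ) : Type := Option (Fin m)

/-! ### the series -/

/-- `z / (1 - a_i z)` -/
noncomputable def GG (i : Fin m) : ℚ⟦X⟧ := X * geo (a i)

lemma coeff_GG (i : Fin m) (f : ℚ⟦X⟧) (k : ℕ) :
    coeff k (GG a i * f) = ∑ l ∈ Finset.range k, (a i : ℚ) ^ (k - 1 - l) * coeff l f := by
  unfold GG
  rw [mul_assoc, mul_comm (geo (a i)) f]
  cases k with
  | zero => simp
  | succ k =>
    rw [coeff_succ_X_mul, coeff_mul]
    simp only [geo, coeff_mk]
    rw [Finset.Nat.sum_antidiagonal_eq_sum_range_succ (fun i' j => coeff i' f * (a i : ℚ) ^ j)]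
    refine Finset.sum_congr rfl fun l _ => ?_
    rw [Nat.add_sub_cancel, mul_comm]

lemma cc_GG (i : Fin m) (f : ℚ⟦X⟧) : coeff 0 (GG a i * f) = 0 := by
  rw [coeff_GG, Finset.range_zero, Finset.sum_empty]

/-- the recursion -/
noncomputable def hh : ℕ → List (Lt m) → ℚ⟦X⟧
  | 0, _ => 1
  | n + 1, w => In ((match w with
      | [] => 0
      | none :: u => hh n u
      | some i :: u => GG a i * hh n u) - if w.getLast? = some none then hh n w.dropLast else 0)

/-- the series of a word -/
noncomputable def hw (w : List (Lt m)) : ℚ⟦X⟧ := hh a w.length w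

/-- the part of the first letter -/
noncomputable def tl : List (Lt m) → ℚ⟦X⟧
  | [] => 0
  | none :: u => hw a u
  | some i :: u => GG a i * hw a u

/-- the part of the last letter -/
noncomputable def la (w : List (Lt m)) : ℚ⟦X⟧ := if w.getLast? = some none then hw a w.dropLast else 0

lemma hw_nil : hw a [] = 1 := rfl

lemma hw_cons (b : Lt m) (u : List (Lt m)) : hw a (b :: u) = In (tl a (b :: u) - la a (b :: u)) := by
  have h1 : (b :: u).dropLast.length = u.length := by simp
  unfold hw la
  rw [List.length_cons]
  unfold hh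
  congr 1
  cases b <;> simp only [tl, hw, h1]

lemma cc_hw (w : List (Lt m)) (h : w ≠ []) : coeff 0 (hw a w) = 0 := by
  obtain ⟨b, u, rfl⟩ := List.exists_cons_of_ne_nil h
  rw [hw_cons, coeff_zero_eq_constantCoeff_apply]
  exact const_In _

lemma cc_eq (b : Lt m) (u : List (Lt m)) : coeff 0 (tl a (b :: u) - la a (b :: u)) = 0 := by
  rw [map_sub]
  by_cases hu : u = []
  · subst hu
    cases b with
    | none => simp [tl, la, hw_nil]
    | some i =>
      have : la a [some i] = 0 := by simp [la]
      rw [this]
      show coeff 0 (GG a i * hw a []) - _ = 0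
      rw [cc_GG, map_zero, sub_zero]
  · have h1 : coeff 0 (la a (b :: u)) = 0 := by
      unfold la
      split_ifs
      · refine cc_hw a _ ?_
        rw [List.dropLast_cons_of_ne_nil hu]
        exact List.cons_ne_nil _ _
      · exact map_zero _
    rw [h1, sub_zero]
    cases b with
    | none => exact cc_hw a u hu
    | some i => exact cc_GG a i _

lemma coeff_hw (b : Lt m) (u : List (Lt m)) (k : ℕ) :
    (k : ℚ) * coeff k (hw a (b :: u)) = coeff k (tl a (b :: u)) - coeff k (la a (b :: u)) := by
  rw [hw_cons, ← map_sub]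
  rcases Nat.eq_zero_or_pos k with rfl | hk
  · rw [cc_eq, Nat.cast_zero, zero_mul]
  · have h0 : (k : ℚ) ≠ 0 := by positivity
    rw [In, coeff_mk]
    field_simp

open Classical in
/-- the entries -/
noncomputable def HH (u v : List (Lt m)) : ℚ⟦X⟧ := if v <:+ u then hw a (u.take (u.length - v.length)) else 0

lemma HH_app (w v : List (Lt m)) : HH a (w ++ v) v = hw a w := by
  unfold HH
  rw [if_pos (List.suffix_append w v)]
  congr 1
  rw [List.length_append, Nat.add_sub_cancel, List.take_left']
  rfl

lemma HH_not {u v : List (Lt m)} (h : ¬ v <:+ u) : HH a u v = 0 := by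
  unfold HH
  rw [if_neg h]

lemma HH_len {u v : List (Lt m)} (h : u.length < v.length) : HH a u v = 0 :=
  HH_not a fun h1 => absurd h1.length_le (not_le.2 h)

/-- the part of the first letter -/
noncomputable def TL : List (Lt m) → List (Lt m) → ℚ⟦X⟧
  | [], _ => 0
  | none :: u, v => HH a u v
  | some i :: u, v => GG a i * HH a u v

lemma main (u v : List (Lt m)) (k : ℕ) :
    (k : ℚ) * coeff k (HH a u v) = coeff k (TL a u v) - coeff k (HH a u (none :: v)) := by
  by_cases h : v <:+ u
  · obtain ⟨w, rfl⟩ := h
    cases w with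
    | nil =>
      have h1 : HH a ([] ++ v) (none :: v) = 0 := HH_len a (by simp)
      have h2 : TL a ([] ++ v) v = 0 := by
        rw [List.nil_append]
        cases v with
        | nil => rfl
        | cons b v =>
          have h3 : HH a v (b :: v) = 0 := HH_len a (by simp)
          cases b with
          | none => exact h3
          | some i =>
            show GG a i * HH a v (some i :: v) = 0
            rw [h3, mul_zero]
      rw [h1, h2, HH_app, hw_nil, map_zero, sub_zero, coeff_one]
      split_ifs with hk
      · rw [hk, Nat.cast_zero, zero_mul]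
      · rw [mul_zero]
    | cons b w =>
      rw [HH_app, coeff_hw]
      congr 2
      · rw [List.cons_append]
        cases b with
        | none => exact (HH_app a w v).symm
        | some i =>
          show GG a i * hw a w = GG a i * HH a (w ++ v) v
          rw [HH_app]
      · unfold la
        split_ifs with hl
        · have h1 : b :: w = (b :: w).dropLast ++ [none] := by
            have hne : b :: w ≠ [] := List.cons_ne_nil _ _
            have h2 := List.dropLast_append_getLast hne
            rw [List.getLast?_eq_some_getLast hne, Option.some.injEq] at hl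
            rw [hl] at h2
            exact h2.symm
          conv_rhs => rw [h1, List.append_assoc]
          show _ = HH a ((b :: w).dropLast ++ (none :: v)) (none :: v)
          rw [HH_app]
        · symm
          apply HH_not
          rintro ⟨t, ht⟩
          apply hl
          have h1 : (t ++ [none]) ++ v = (b :: w) ++ v := by
            rw [← ht]
            simp
          rw [← List.append_cancel_right h1]
          simp
  · have h1 : HH a u (none :: v) = 0 := HH_not a fun h1 => h ((List.suffix_cons _ _).trans h1)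
    have h2 : TL a u v = 0 := by
      cases u with
      | nil => rfl
      | cons b u =>
        have h3 : HH a u v = 0 := HH_not a fun h4 => h (h4.trans (List.suffix_cons _ _))
        cases b with
        | none => exact h3
        | some i =>
          show GG a i * HH a u v = 0
          rw [h3, mul_zero]
    rw [h1, h2, HH_not a h]
    simp

/-! ### arithmetic -/

lemma SDc_In {f : ℚ⟦X⟧} (h : SDc f) : SDc (In f) := by
  obtain ⟨n, hn⟩ := h
  exact ⟨8 + n, (Pool.Agent.Y119.ML.SDp_In hn).mono (by rw [pow_add])⟩

lemma SDc_GG (i : Fin m) : SDc (GG a i) := by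
  refine SDc.X.mul (Pool.Agent.Y119.HY.sdc_of ⟨|(a i : ℝ)| + 1, fun k => ?_⟩
    ⟨1, fun k => ⟨1, one_pos, ?_, fun j _ => ⟨(a i) ^ j, ?_⟩⟩⟩)
  · rw [geo, coeff_mk]
    push_cast
    rw [abs_pow]
    have h1 : (0 : ℝ) ≤ |(a i : ℝ)| := abs_nonneg _
    calc |(a i : ℝ)| ^ k ≤ (|(a i : ℝ)| + 1) ^ k := pow_le_pow_left₀ h1 (by linarith) k
      _ ≤ (|(a i : ℝ)| + 1) ^ (k + 1) := pow_le_pow_right₀ (by linarith) (by omega)
  · simp
  · rw [geo, coeff_mk]; simp

lemma SDc_zero : SDc (0 : ℚ⟦X⟧) := by simpa using SDc.int 0

lemma SDc_sub {f g : ℚ⟦X⟧} (h : SDc f) (h' : SDc g) : SDc (f - g) := by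
  have h1 := h.add ((SDc.int (-1)).mul h')
  have e : f + ((-1 : ℤ) : ℚ⟦X⟧) * g = f - g := by push_cast; ring
  rwa [e] at h1

lemma SDc_hh (n : ℕ) : ∀ w, SDc (hh a n w) := by
  induction n with
  | zero => exact fun w => SDc.one
  | succ n ih =>
    intro w
    unfold hh
    refine SDc_In (SDc_sub ?_ ?_)
    · split
      · exact SDc_zero
      · exact ih _
      · exact (SDc_GG a _).mul (ih _)
    · split_ifs
      · exact ih _
      · exact SDc_zero

lemma SDc_HH (u v : List (Lt m)) : SDc (HH a u v) := by
  unfold HH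
  split_ifs
  · exact SDc_hh a _ _
  · exact SDc_zero

/-! ### convergence -/

section cv

variable {t : ℝ}

lemma Cv_zero : Cv t (0 : ℚ⟦X⟧) := by
  have := Cv.coe (t := t) (0 : Polynomial ℚ)
  rwa [Polynomial.coe_zero] at this

lemma Cv_sub (ht : 0 < t) {f g : ℚ⟦X⟧} (h : Cv t f) (h' : Cv t g) : Cv t (f - g) := by
  have h1 := Cv.coe (t := t) (-1 : Polynomial ℚ)
  rw [Polynomial.coe_neg, Polynomial.coe_one] at h1
  have h2 := h.add ht (h1.mul ht h')
  have e : f + (-1) * g = f - g := by ring
  rwa [e] at h2

lemma Cv_In (ht : 0 < t) {f : ℚ⟦X⟧} (h : Cv t f) : Cv t (In f) := by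
  refine Summable.of_nonneg_of_le (fun k => by positivity) (fun k => ?_) h
  refine mul_le_mul_of_nonneg_right ?_ (by positivity)
  rw [In, coeff_mk]
  push_cast
  rw [abs_div]
  rcases Nat.eq_zero_or_pos k with rfl | hk
  · simp
  · have h1 : (1 : ℝ) ≤ |(k : ℝ)| := by
      rw [abs_of_nonneg (by positivity)]
      exact_mod_cast hk
    exact div_le_self (abs_nonneg _) h1

lemma Cv_GG (ht : 0 < t) {i : Fin m} (h : |(a i : ℝ)| < t) : Cv t (GG a i) := by
  have h1 := Cv.coe (t := t) (Polynomial.X : Polynomial ℚ)
  rw [Polynomial.coe_X] at h1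
  refine h1.mul ht ?_
  have h2 : Summable fun k : ℕ => (|(a i : ℝ)| * (1 / t)) ^ k := by
    refine summable_geometric_of_lt_one (by positivity) ?_
    rw [mul_one_div, div_lt_one ht]
    exact h
  refine h2.congr fun k => ?_
  rw [geo, coeff_mk, mul_pow]
  push_cast
  rw [abs_pow]

lemma Cv_hh (ht : 0 < t) (h : ∀ i, |(a i : ℝ)| < t) (n : ℕ) : ∀ w, Cv t (hh a n w) := by
  induction n with
  | zero => exact fun w => Cv.one
  | succ n ih =>
    intro w
    unfold hh
    refine Cv_In ht (Cv_sub ht ?_ ?_)
    · split
      · exact Cv_zero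
      · exact ih _
      · exact (Cv_GG a ht (h _)).mul ht (ih _)
    · split_ifs
      · exact ih _
      · exact Cv_zero

lemma Cv_HH (ht : 0 < t) (h : ∀ i, |(a i : ℝ)| < t) (u v : List (Lt m)) : Cv t (HH a u v) := by
  unfold HH
  split_ifs
  · exact Cv_hh a ht h _ _
  · exact Cv_zero

end cv

/-! ### the hyperlogarithms -/

lemma hw_hy (w : List (Lt m)) (h : w.getLast? ≠ some none) : hw a w = hy a w := by
  induction w with
  | nil =>
    rw [hw_nil]
    ext k
    rw [hy, coeff_mk, coeff_one]
    rfl
  | cons b u ih =>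
    have h1 : u.getLast? ≠ some none := by
      cases u with
      | nil => simp
      | cons c u => rwa [List.getLast?_cons_cons] at h
    have h2 : la a (b :: u) = 0 := if_neg h
    rw [hw_cons, h2, sub_zero]
    ext k
    rw [In, coeff_mk, hy, coeff_mk]
    cases b with
    | none =>
      show coeff k (hw a u) / k = co a u k / k
      rw [ih h1, hy, coeff_mk]
    | some i =>
      show coeff k (GG a i * hw a u) / k = (∑ l ∈ Finset.range k, (a i : ℚ) ^ (k - 1 - l) * co a u l) / k
      rw [ih h1, coeff_GG]
      simp only [hy, coeff_mk]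

/-! ### matrices -/

lemma nilp {R : Type} [CommRing R] {d : ℕ} (ℓ : Fin d → ℕ) (M : Matrix (Fin d) (Fin d) R)
    (hM : ∀ i j, ℓ i ≤ ℓ j → M i j = 0) : ∀ k i j, ℓ i < ℓ j + k → (M ^ k) i j = 0 := by
  intro k
  induction k with
  | zero =>
    intro i j h
    rw [pow_zero, Matrix.one_apply_ne]
    rintro rfl
    omega
  | succ k ih =>
    intro i j h
    rw [pow_succ, Matrix.mul_apply]
    refine Finset.sum_eq_zero fun x _ => ?_
    by_cases hx : ℓ x ≤ ℓ j
    · rw [hM x j hx, mul_zero]
    · rw [ih i x (by omega), zero_mul]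

lemma nilp' {R : Type} [CommRing R] {d : ℕ} (ℓ : Fin d → ℕ) (M : Matrix (Fin d) (Fin d) R) (W : ℕ)
    (hW : ∀ i, ℓ i ≤ W) (hM : ∀ i j, ℓ i ≤ ℓ j → M i j = 0) : M ^ (W + 1) = 0 := by
  ext i j
  have := hW i
  exact nilp ℓ M hM _ i j (by omega)

/-- the words -/
abbrev WW (m W : ℕ) : Type := {w : List (Lt m) // w.length ≤ W}

noncomputable instance (m W : ℕ) : Fintype (WW m W) :=
  @Fintype.ofFinite _ (List.finite_length_le (Lt m) W).to_subtype

/-- the word of an index -/
noncomputable def wd {W : ℕ} (i : Fin (Fintype.card (WW m W))) : List (Lt m) := ((Fintype.equivFin (WW m W)).symm i).1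

lemma wd_len {W : ℕ} (i : Fin (Fintype.card (WW m W))) : (wd i).length ≤ W :=
  ((Fintype.equivFin (WW m W)).symm i).2

lemma wd_inj {W : ℕ} : Function.Injective (wd (m := m) (W := W)) :=
  Subtype.val_injective.comp (Fintype.equivFin (WW m W)).symm.injective

lemma wd_surj {W : ℕ} (w : List (Lt m)) (h : w.length ≤ W) : ∃ i : Fin (Fintype.card (WW m W)), wd i = w :=
  ⟨Fintype.equivFin (WW m W) ⟨w, h⟩, by unfold wd; rw [Equiv.symm_apply_apply]⟩

lemma sum_wd {R : Type} [AddCommMonoid R] {W : ℕ} (f : List (Lt m) → R) (w : List (Lt m))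
    (h : W < w.length → f w = 0) :
    ∑ x : Fin (Fintype.card (WW m W)), (if wd x = w then f (wd x) else 0) = f w := by
  by_cases hw : w.length ≤ W
  · obtain ⟨i, rfl⟩ := wd_surj w hw
    rw [Finset.sum_eq_single i]
    · rw [if_pos rfl]
    · intro b _ hb
      rw [if_neg fun h => hb (wd_inj h)]
    · intro h
      exact absurd (Finset.mem_univ _) h
  · rw [h (not_le.1 hw)]
    refine Finset.sum_eq_zero fun x _ => ?_
    rw [if_neg]
    intro h1
    exact hw (h1 ▸ wd_len x)

lemma SDc_matmul {d : ℕ} {M M' : Matrix (Fin d) (Fin d) ℚ⟦X⟧} (h : ∀ i j, SDc (M i j)) (h' : ∀ i j, SDc (M' i j))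
    (i j : Fin d) : SDc ((M * M') i j) := by
  rw [Matrix.mul_apply]
  exact SDc.sum' _ fun k _ => (h i k).mul (h' k j)

/-- the polynomial `1 - a_i z` -/
noncomputable def qa (i : Fin m) : Polynomial ℤ := 1 - Polynomial.C (a i) * Polynomial.X

lemma qa_ne (i : Fin m) : qa a i ≠ 0 := by
  intro h
  have := congrArg (Polynomial.eval 0) h
  simp [qa] at this

lemma ps_mul' (p q : Polynomial ℤ) : ps (p * q) = ps p * ps q := by
  unfold ps
  rw [Polynomial.map_mul, Polynomial.coe_mul]

lemma ps_qa (i : Fin m) : ps (qa a i) * geo (a i) = 1 := by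
  have h1 : ps (qa a i) = 1 - ((a i : ℤ) : ℚ⟦X⟧) * X := by
    unfold ps qa
    rw [Polynomial.map_sub, Polynomial.map_one, Polynomial.map_mul, Polynomial.map_X, Polynomial.map_C,
      Polynomial.coe_sub, Polynomial.coe_one, Polynomial.coe_mul, Polynomial.coe_X, Polynomial.coe_C]
    simp
  rw [h1]
  exact geo_mul (a i)

lemma ps_GG (i : Fin m) : ps (∏ j, qa a j) * GG a i = ps (Polynomial.X * ∏ j ∈ Finset.univ.erase i, qa a j) := by
  rw [← Finset.mul_prod_erase _ _ (Finset.mem_univ i), ps_mul', ps_mul']
  have h1 : ps (Polynomial.X : Polynomial ℤ) = X := by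
    unfold ps
    rw [Polynomial.map_X, Polynomial.coe_X]
  rw [h1]
  unfold GG
  linear_combination (X * ps (∏ j ∈ Finset.univ.erase i, qa a j)) * ps_qa a i

/-- **HLS** -/
theorem p_HLS : S_HLS := by
  classical
  intro m a L hL hLa W
  set d := Fintype.card (WW m W) with hd
  let N : Matrix (Fin d) (Fin d) ℚ := Matrix.of fun i j => if wd i = none :: wd j then 1 else 0
  let H : Matrix (Fin d) (Fin d) ℚ⟦X⟧ := Matrix.of fun i j => HH a (wd i) (wd j)
  let V : Matrix (Fin d) (Fin d) ℚ⟦X⟧ := ∑ i ∈ Finset.range (W + 1), (1 - H) ^ i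
  have hN : ∀ i j, (wd i).length ≤ (wd j).length → N i j = 0 := by
    intro i j h
    show (if wd i = none :: wd j then (1 : ℚ) else 0) = 0
    rw [if_neg]
    intro h1
    rw [h1, List.length_cons] at h
    omega
  have hH : ∀ i j, (wd i).length ≤ (wd j).length → (1 - H) i j = 0 := by
    intro i j h
    rw [Matrix.sub_apply]
    show _ - HH a (wd i) (wd j) = 0
    by_cases hij : i = j
    · subst hij
      rw [Matrix.one_apply_eq]
      have := HH_app a [] (wd i)
      rw [List.nil_append] at this
      rw [this, hw_nil, sub_self]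
    · rw [Matrix.one_apply_ne hij, HH_not, sub_zero]
      intro h1
      exact hij (wd_inj (h1.eq_of_length_le h).symm)
  have hNp := nilp' (fun i => (wd i).length) N W wd_len hN
  have hHp := nilp' (fun i => (wd i).length) (1 - H) W wd_len hH
  have hdW : W + 1 ≤ d := by
    have h1 : Function.Injective (fun k : Fin (W + 1) =>
        (⟨List.replicate k.val none, by rw [List.length_replicate]; omega⟩ : WW m W)) := by
      intro k k' h
      have h2 := congrArg (fun w : WW m W => w.1.length) h
      simp only [List.length_replicate] at h2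
      exact Fin.ext h2
    simpa using Fintype.card_le_of_injective _ h1
  have hzero : ∀ i j, coeff 0 (H i j) = if i = j then 1 else 0 := by
    intro i j
    show coeff 0 (HH a (wd i) (wd j)) = _
    by_cases hij : i = j
    · subst hij
      have := HH_app a [] (wd i)
      rw [List.nil_append] at this
      rw [this, hw_nil, if_pos rfl]
      simp
    · rw [if_neg hij]
      by_cases h : wd j <:+ wd i
      · obtain ⟨w, hw⟩ := h
        rw [← hw, HH_app]
        refine cc_hw a w ?_
        rintro rfl
        rw [List.nil_append] at hw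
        exact hij (wd_inj hw).symm
      · rw [HH_not a h, map_zero]
  -- the differential equation
  have hth : ∀ u v, X * d⁄dX ℚ (HH a u v) = TL a u v - HH a u (none :: v) := by
    intro u v
    ext k
    rw [map_sub, ← main]
    cases k with
    | zero => simp
    | succ k =>
      rw [coeff_succ_X_mul, coeff_derivative]
      push_cast
      ring
  have hHN : ∀ i j, ∑ k, H i k * C (N k j) = HH a (wd i) (none :: wd j) := by
    intro i j
    have h1 := sum_wd (W := W) (fun w => HH a (wd i) w) (none :: wd j) (fun h =>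
      HH_len a (lt_of_le_of_lt (wd_len i) h))
    rw [← h1]
    refine Finset.sum_congr rfl fun x _ => ?_
    show HH a (wd i) (wd x) * C (if wd x = none :: wd j then (1 : ℚ) else 0) = _
    split_ifs
    · rw [map_one, mul_one]
    · rw [map_zero, mul_zero]
  let T : Polynomial ℤ := ∏ j, qa a j
  let A : Fin d → Fin d → Polynomial ℤ := fun i k => (if wd i = none :: wd k then T else 0) +
    ∑ s, (if wd i = some s :: wd k then Polynomial.X * ∏ j ∈ Finset.univ.erase s, qa a j else 0)
  have hps0 : ps 0 = 0 := by
    unfold ps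
    rw [Polynomial.map_zero, Polynomial.coe_zero]
  have hTL : ∀ i j, ps T * TL a (wd i) (wd j) = ∑ k, ps (A i k) * H k j := by
    intro i j
    have hA : ∀ k, ps (A i k) = (if wd i = none :: wd k then ps T else 0) +
        ∑ s, (if wd i = some s :: wd k then ps T * GG a s else 0) := by
      intro k
      have e1 : ∀ p q : Polynomial ℤ, ps (p + q) = ps p + ps q := by
        intro p q
        unfold ps
        rw [Polynomial.map_add, Polynomial.coe_add]
      have e2 : ∀ f : Fin m → Polynomial ℤ, ps (∑ s, f s) = ∑ s, ps (f s) := by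
        intro f
        unfold ps
        rw [Polynomial.map_sum]
        exact map_sum (Polynomial.coeToPowerSeries.ringHom (R := ℚ)) (fun s => (f s).map (Int.castRingHom ℚ))
          Finset.univ
      show ps ((if wd i = none :: wd k then T else 0) +
        ∑ s, (if wd i = some s :: wd k then Polynomial.X * ∏ j ∈ Finset.univ.erase s, qa a j else 0)) = _
      rw [e1, e2]
      congr 1
      · split_ifs
        · rfl
        · exact hps0
      · refine Finset.sum_congr rfl fun s _ => ?_
        split_ifs
        · exact (ps_GG a s).symm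
        · exact hps0
    simp only [hA, add_mul, Finset.sum_add_distrib]
    have hlen : ∀ u : List (Lt m), (wd i).length = u.length + 1 → u.length ≤ W := by
      intro u hu
      have := wd_len i
      omega
    rcases hwi : wd i with _ | ⟨b, u⟩
    · rw [Finset.sum_eq_zero, Finset.sum_eq_zero]
      · show ps T * 0 = _
        rw [mul_zero, add_zero]
      · intro k _
        rw [Finset.sum_eq_zero, zero_mul]
        intro s _
        rw [if_neg (List.cons_ne_nil _ _).symm]
      · intro k _
        rw [if_neg (List.cons_ne_nil _ _).symm, zero_mul]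
    · have hul : u.length ≤ W := hlen u (by rw [hwi, List.length_cons])
      have hsum := sum_wd (W := W) (fun w => ps T * HH a w (wd j)) u (fun h => by omega)
      cases b with
      | none =>
        have h2 : ∑ k, (∑ s : Fin m, (if (none :: u : List (Lt m)) = some s :: wd k then ps T * GG a s else 0)) *
            H k j = 0 := by
          refine Finset.sum_eq_zero fun k _ => ?_
          rw [Finset.sum_eq_zero, zero_mul]
          intro s _
          rw [if_neg (fun h => by simp at h)]
        rw [h2, add_zero]
        show ps T * HH a u (wd j) = _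
        rw [← hsum]
        refine Finset.sum_congr rfl fun k _ => ?_
        show _ = _ * HH a (wd k) (wd j)
        by_cases hk : wd k = u
        · rw [if_pos hk, if_pos (by rw [hk])]
        · rw [if_neg hk, if_neg (fun h => hk (List.cons_injective h).symm), zero_mul]
      | some s₀ =>
        have h2 : ∑ k, (if (some s₀ :: u : List (Lt m)) = none :: wd k then ps T else 0) * H k j = 0 := by
          refine Finset.sum_eq_zero fun k _ => ?_
          rw [if_neg (fun h => by simp at h), zero_mul]
        rw [h2, zero_add]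
        have hsum2 := sum_wd (W := W) (fun w => ps T * (GG a s₀ * HH a w (wd j))) u (fun h => by omega)
        show ps T * (GG a s₀ * HH a u (wd j)) = _
        rw [← hsum2]
        refine Finset.sum_congr rfl fun k _ => ?_
        show _ = _ * HH a (wd k) (wd j)
        rw [Finset.sum_eq_single s₀]
        · by_cases hk : wd k = u
          · rw [if_pos hk, if_pos (by rw [hk]), mul_assoc]
          · rw [if_neg hk, if_neg (fun h => hk (List.cons_injective h).symm), zero_mul]
        · intro s _ hs
          rw [if_neg]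
          intro h
          have h3 := (List.cons.inj h).1
          rw [Option.some.injEq] at h3
          exact hs h3.symm
        · intro h
          exact absurd (Finset.mem_univ _) h
  refine ⟨d, N, H, V, ⟨?_, ?_, hzero, ?_, ?_, ?_, ?_, ?_⟩, ?_⟩
  · refine ⟨fun i j => if wd i = none :: wd j then 1 else 0, fun i j => ?_⟩
    by_cases h : wd i = none :: wd j
    · simp [N, h]
    · simp [N, h]
  · exact pow_eq_zero_of_le hdW hNp
  · refine ⟨T, A, Finset.prod_ne_zero_iff.2 fun j _ => qa_ne a j, fun i j => ?_⟩
    rw [← hTL, hHN]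
    show ps T * (X * d⁄dX ℚ (HH a (wd i) (wd j)) + _) = _
    rw [hth, sub_add_cancel]
  · show H * V = 1
    have h1 := mul_neg_geom_sum (1 - H) (W + 1)
    rw [sub_sub_cancel, hHp, sub_zero] at h1
    exact h1
  · intro i j
    exact SDc_HH a _ _
  · intro i j
    show SDc ((∑ k ∈ Finset.range (W + 1), (1 - H) ^ k) i j)
    rw [Matrix.sum_apply]
    refine SDc.sum' _ fun k hk => ?_
    clear hk
    have h1 : ∀ i j, SDc ((1 - H) i j) := by
      intro i j
      rw [Matrix.sub_apply]
      refine SDc_sub ?_ (SDc_HH a _ _)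
      rw [Matrix.one_apply]
      split_ifs
      · exact SDc.one
      · exact SDc_zero
    clear hTL hHN hth hHp hNp
    induction k generalizing i j with
    | zero =>
      rw [pow_zero, Matrix.one_apply]
      split_ifs
      · exact SDc.one
      · exact SDc_zero
    | succ k ih =>
      rw [pow_succ]
      exact SDc_matmul (fun i j => ih i j) h1 i j
  · intro t ht i j
    have ht0 : 0 < t := by linarith
    exact Cv_HH a ht0 (fun i => lt_of_le_of_lt (hLa i) ht) _ _
  · intro w
    obtain ⟨p, hp⟩ := wd_surj (W := W) w.1 w.2.1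
    obtain ⟨q, hq⟩ := wd_surj (m := m) (W := W) [] (Nat.zero_le _)
    refine ⟨p, q, ?_⟩
    show HH a (wd p) (wd q) = _
    rw [hp, hq, ← hw_hy a w.1 w.2.2]
    have := HH_app a w.1 []
    rwa [List.append_nil] at this

end Pool.Agent.Run7.h160.CP
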