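import Pool.Agent.Run7.h160.HP.ONE
import Pool.Agent.Run7.h696.CP.Iface
import Pool.Agent.Run7.h468.CF.BLKL

/-!
# Project CP (helper696), piece ONEH (helper160)

Adapted from `Run7/h160/HP/ONE.lean`.
-/

set_option autoImplicit false

open PowerSeries Matrix
open Pool.Agent.Y113 hiding Bm
open Pool.Agent.Y120.GF Pool.Agent.Y120.GH Pool.Agent.Y119.HZ
open Pool.Agent.Y119.HY (cm E Hf Yf Vr)
open Pool.Agent.Run7.h225.HG Pool.Agent.Run7.h696.CF Pool.Agent.Run7.h696.CP
open Pool.Agent.Run7.h160.HP (right_inv sr sr_eq ev_ps_mul blk_ent hfg_ix)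

namespace Pool.Agent.Run7.h160.CP

/-- transfer of the property from `w` to `y` -/
theorem transferL {L : ℝ} (hL1 : 1 ≤ L) {P G : Type} [Fintype P] [Fintype G] {δ : ℕ} {y : P → ℚ⟦X⟧} {w : G → ℚ⟦X⟧} {a : Polynomial ℤ}
    (ha : a ≠ 0) (M : P → G → Polynomial ℤ) (hM : ∀ p, ps a * y p = ∑ g, ps (M p g) * w g)
    (hli : LinearIndependent (Polynomial ℚ) y) (hcy : ∀ t : ℝ, L < t → ∀ p, Cv t (y p))
    (hcw : ∀ t : ℝ, L < t → ∀ g, Cv t (w g)) (hw : One (XF (δ + 1) w)) : One (XF δ y) := by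
  classical
  -- the right inverse
  obtain ⟨d, Lm, hd, hLm⟩ := right_inv M (by
    intro q hq
    have h1 : ∀ p, (q p * a).map (Int.castRingHom ℚ) = 0 := by
      refine Fintype.linearIndependent_iff.1 hli (fun p => (q p * a).map (Int.castRingHom ℚ)) ?_
      have h2 : ∀ p, ((q p * a).map (Int.castRingHom ℚ)) • y p = ∑ g, ps (q p * M p g) * w g := by
        intro p
        rw [psmul]
        show ps (q p * a) * y p = _
        have h3 : ∀ u v : Polynomial ℤ, ps (u * v) = ps u * ps v := by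
          intro u v
          unfold ps
          rw [Polynomial.map_mul, Polynomial.coe_mul]
        rw [h3, mul_assoc, hM, Finset.mul_sum]
        refine Finset.sum_congr rfl fun g _ => ?_
        rw [h3, mul_assoc]
      rw [Finset.sum_congr rfl fun p _ => h2 p, Finset.sum_comm]
      refine Finset.sum_eq_zero fun g _ => ?_
      rw [← Finset.sum_mul]
      have h4 : ∑ p, ps (q p * M p g) = ps (∑ p, q p * M p g) := by
        unfold ps
        rw [Polynomial.map_sum]
        exact (map_sum (Polynomial.coeToPowerSeries.ringHom (R := ℚ)) _ _).symm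
      rw [h4, hq g]
      unfold ps
      rw [Polynomial.map_zero, Polynomial.coe_zero, zero_mul]
    intro p
    have h5 := (Polynomial.map_eq_zero_iff (Int.castRingHom ℚ).injective_int).1 (h1 p)
    exact (mul_eq_zero.1 h5).resolve_right ha)
  obtain ⟨t₀, ht₀⟩ := no_roots (mul_ne_zero ha hd)
  set t₁ := t₀ + ⌈L⌉₊ + 1 with ht₁
  have hne : ∀ t : ℕ, t₁ < t → sr t (a * d) ≠ 0 := by
    intro t ht h
    have h1 : (t₀ : ℝ) < t := by exact_mod_cast (by omega : t₀ < t)
    apply ht₀ t h1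
    rw [aeval_sq]
    rw [sr_eq] at h
    have h2 : (sq t (a * d) : ℚ) = 0 := by exact_mod_cast h
    rw [h2]
    push_cast
    rfl
  have key : ∀ (V : Submodule ℚ ℂ) (t : ℕ), t₁ < t → Bad V (XF δ y t) → Bad V (XF (δ + 1) w t) := by
    intro V t ht hbad
    obtain ⟨v, hvV, hv0, hv⟩ := hbad
    have ht1' : L < t := by
      have h1 : (⌈L⌉₊ : ℝ) < t := by exact_mod_cast (by omega : ⌈L⌉₊ < t)
      exact lt_of_le_of_lt (Nat.le_ceil L) h1
    have ht1 : 1 < t := by
      have : (1 : ℝ) < t := lt_of_le_of_lt hL1 ht1'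
      exact_mod_cast this
    have hade := hne t ht
    rw [map_mul] at hade
    have had0 : sr t d ≠ 0 := right_ne_zero_of_mul hade
    let u : G × Fin (δ + 1 + 1) → ℂ := fun x =>
      if h : x.2.val < δ + 1 then ∑ p, sr t (M p x.1) * v (p, ⟨x.2.val, h⟩) else 0
    have hu : ∀ g (e : Fin (δ + 1)), u (g, e.castSucc) = ∑ p, sr t (M p g) * v (p, e) := by
      intro g e
      show (if h : e.castSucc.val < δ + 1 then ∑ p, sr t (M p g) * v (p, ⟨e.castSucc.val, h⟩) else 0) = _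
      rw [dif_pos (by exact e.2)]
      rfl
    have hul : ∀ g, u (g, Fin.last (δ + 1)) = 0 := by
      intro g
      show (if h : (Fin.last (δ + 1)).val < δ + 1 then ∑ p, sr t (M p g) * v (p, ⟨(Fin.last (δ + 1)).val, h⟩) else 0) = 0
      rw [dif_neg (by rw [Fin.val_last]; omega)]
    refine ⟨u, ?_, ?_, ?_⟩
    · rintro ⟨g, e⟩
      show (if h : e.val < δ + 1 then ∑ p, sr t (M p g) * v (p, ⟨e.val, h⟩) else 0) ∈ V
      split_ifs with h
      · refine sum_mem fun p _ => ?_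
        rw [sr_eq]
        have h1 : ((sq t (M p g) : ℚ) : ℂ) * v (p, ⟨e.val, h⟩) = (sq t (M p g) : ℚ) • v (p, ⟨e.val, h⟩) := by
          rw [Algebra.smul_def]
          rfl
        rw [h1]
        exact V.smul_mem _ (hvV _)
      · exact V.zero_mem
    · intro hu0
      apply hv0
      funext ⟨p', e⟩
      have h1 : ∑ g, u (g, e.castSucc) * sr t (Lm g p') = 0 := by
        refine Finset.sum_eq_zero fun g _ => ?_
        rw [hu0, Pi.zero_apply, zero_mul]
      have h2 : ∑ g, u (g, e.castSucc) * sr t (Lm g p') = ∑ p, v (p, e) * sr t (∑ g, M p g * Lm g p') := by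
        simp only [hu, Finset.sum_mul]
        rw [Finset.sum_comm]
        refine Finset.sum_congr rfl fun p _ => ?_
        rw [map_sum, Finset.mul_sum]
        refine Finset.sum_congr rfl fun g _ => ?_
        rw [map_mul]
        ring
      rw [h2] at h1
      simp only [hLm] at h1
      rw [Finset.sum_eq_single p'] at h1
      · rw [if_pos rfl] at h1
        exact (mul_eq_zero.1 h1).resolve_right had0
      · intro p _ hp
        rw [if_neg hp, map_zero, mul_zero]
      · intro h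
        exact absurd (Finset.mem_univ _) h
    · have hval : ∀ p, sr t a * ((ev (t : ℝ) (y p) : ℝ) : ℂ) = ∑ g, sr t (M p g) * ((ev (t : ℝ) (w g) : ℝ) : ℂ) := by
        intro p
        rw [← ev_ps_mul ht1 a (hcy t ht1' p), hM]
        rw [Cv.ev_sum (by linarith) Finset.univ (fun g => ps (M p g) * w g)
          (fun g _ => (Cv.coe _ : Cv (t : ℝ) (ps (M p g))).mul (by linarith) (hcw t ht1' g))]
        rw [Complex.ofReal_sum]
        refine Finset.sum_congr rfl fun g _ => ?_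
        exact ev_ps_mul ht1 _ (hcw t ht1' g)
      have h1 : ∑ x, u x * XF (δ + 1) w t x = sr t a * ∑ x, v x * XF δ y t x := by
        rw [Fintype.sum_prod_type, Fintype.sum_prod_type, Finset.mul_sum]
        have h2 : ∀ g, ∑ e : Fin (δ + 1 + 1), u (g, e) * XF (δ + 1) w t (g, e) =
            ∑ p, ∑ e : Fin (δ + 1), (sr t (M p g) * ((ev (t : ℝ) (w g) : ℝ) : ℂ)) *
              (v (p, e) * (((Real.log t : ℝ) : ℂ)) ^ (e : ℕ)) := by
          intro g
          rw [Fin.sum_univ_castSucc, hul, zero_mul, add_zero, Finset.sum_comm]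
          refine Finset.sum_congr rfl fun e _ => ?_
          rw [hu, Finset.sum_mul]
          refine Finset.sum_congr rfl fun p _ => ?_
          show _ * (((ev t (w g) : ℝ) : ℂ) * (((Real.log t : ℝ) : ℂ)) ^ (e.castSucc : ℕ)) = _
          rw [Fin.val_castSucc]
          ring
        rw [Finset.sum_congr rfl fun g _ => h2 g, Finset.sum_comm]
        refine Finset.sum_congr rfl fun p _ => ?_
        rw [Finset.sum_comm, Finset.mul_sum]
        refine Finset.sum_congr rfl fun e _ => ?_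
        rw [← Finset.sum_mul, ← hval]
        show _ = sr t a * (v (p, e) * (((ev t (y p) : ℝ) : ℂ) * (((Real.log t : ℝ) : ℂ)) ^ (e : ℕ)))
        ring
      rw [h1, hv, mul_zero]
  intro D
  obtain ⟨c, C, hc, hC, h1⟩ := hw D
  refine ⟨c, C + (t₁ + 1), hc, by positivity, ?_⟩
  intro V _ hV x N hN S hS
  set S₁ := S.filter (fun t => t ≤ t₁) with hS₁
  set S₂ := S.filter (fun t => ¬ t ≤ t₁) with hS₂
  have e1 : (S₁.card : ℝ) ≤ t₁ + 1 := by
    have h2 : S₁ ⊆ Finset.range (t₁ + 1) := by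
      intro t ht
      rw [Finset.mem_range]
      have := (Finset.mem_filter.1 ht).2
      omega
    have h3 := Finset.card_le_card h2
    rw [Finset.card_range] at h3
    exact_mod_cast h3
  have e2 := h1 V hV x N hN S₂ (fun t ht => by
    have h2 := Finset.mem_filter.1 ht
    have h3 := hS t h2.1
    exact ⟨h3.1, h3.2.1, key V t (by omega) h3.2.2⟩)
  have e3 : (S₁.card : ℝ) + S₂.card = S.card := by
    exact_mod_cast Finset.card_filter_add_card_filter_not (s := S) (fun t => t ≤ t₁)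
  have e4 : (0 : ℝ) ≤ N / ((x : ℝ) + N) ^ c := by positivity
  have e5 : (0 : ℝ) ≤ t₁ + 1 := by positivity
  have e6 : ((t₁ : ℝ) + 1) * 1 ≤ (t₁ + 1) * (1 + N / ((x : ℝ) + N) ^ c) :=
    mul_le_mul_of_nonneg_left (by linarith) e5
  rw [← e3]
  calc (S₁.card : ℝ) + S₂.card ≤ (t₁ + 1) * (1 + N / ((x : ℝ) + N) ^ c) + C * (1 + N / ((x : ℝ) + N) ^ c) := by
        linarith
    _ = (C + (t₁ + 1)) * (1 + N / ((x : ℝ) + N) ^ c) := by ring

/-- a system with all data -/
structure SB (L : ℝ) where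
  n : ℕ
  N : Matrix (Fin n) (Fin n) ℚ
  H : Matrix (Fin n) (Fin n) ℚ⟦X⟧
  V : Matrix (Fin n) (Fin n) ℚ⟦X⟧
  h : SysL L n N H V

lemma ent {L : ℝ} (s : Fin 2 → SB L) (j : Fin 2) (i k : Fin (s j).n) :
    ∃ c, hfg (blk (fun j => (s j).n) ℚ⟦X⟧ fun j => (s j).H) c = (s j).H i k := by
  obtain ⟨c, hc⟩ := hfg_ix (blk (fun j => (s j).n) ℚ⟦X⟧ fun j => (s j).H) (finSigmaFinEquiv ⟨j, i⟩)
    (finSigmaFinEquiv ⟨j, k⟩)
  exact ⟨c, hc.trans (blk_ent (fun j => (s j).n) (fun j => (s j).H) j i k)⟩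

lemma Cv_yw {L : ℝ} (hL1 : 1 ≤ L) {n : ℕ} {N : Matrix (Fin n) (Fin n) ℚ} {H V : Matrix (Fin n) (Fin n) ℚ⟦X⟧}
    (h : SysL L n N H V) {t : ℝ} (ht : L < t) {δ : ℕ} (b : Fin δ → Option (Fin (n * n))) :
    Cv t (yw (hfg H) b) := by
  unfold yw
  refine Cv.prod (by linarith) _ _ fun j _ => ?_
  rcases b j with _ | i
  · exact Cv.one
  · exact h.cv t ht _ _

/-- the arithmetic input for one system -/
lemma one_sys {L : ℝ} {n : ℕ} {N : Matrix (Fin n) (Fin n) ℚ} {H V : Matrix (Fin n) (Fin n) ℚ⟦X⟧}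
    (hS : SysL L n N H V) (δ : ℕ) : ∃ (B : Finset (Fin δ → Option (Fin (n * n)))) (a : Polynomial ℤ)
      (M : (Fin δ → Option (Fin (n * n))) → B → Polynomial ℤ), a ≠ 0 ∧
      (∀ b, ps a * yw (hfg H) b = ∑ β, ps (M b β) * yw (hfg H) β.1) ∧ One (XF δ fun β : B => yw (hfg H) β.1) := by
  obtain ⟨Nz, hNz⟩ := hS.int
  obtain ⟨T₁, A, hT₁, hode⟩ := hS.ode
  exact (fam_gen hS.nil hNz hT₁ hS.inv hS.zero hode hS.sH hS.sW δ).2

/-- **ONEH** -/
theorem p_ONEH : S_ONEH := by
  classical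
  intro hP hI m a L hL1 hLa n N H V hS hNL δ W
  have hone : yw (hfg H) (fun _ : Fin δ => none) = 1 := by
    unfold yw
    exact Finset.prod_eq_one fun j _ => rfl
  obtain ⟨B₀, hb₀, hLI, b, M, hb, hM⟩ := max_li (fun b : Fin δ → Option (Fin (n * n)) => yw (hfg H) b)
    (fun _ => none) (by
      rw [hone]
      exact one_ne_zero)
  refine ⟨B₀, b, M, hb, hM, ?_⟩
  -- the differential equation
  obtain ⟨Nz, hNz⟩ := hS.int
  obtain ⟨T₁, A, hT₁, hode⟩ := hS.ode
  have hT : Polynomial.X * T₁ ≠ 0 := mul_ne_zero Polynomial.X_ne_zero hT₁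
  have hode' : ∀ i, ps (Polynomial.X * T₁) * d⁄dX ℚ (hfg H i) =
      ∑ j, ps (A3 T₁ A Nz (ix n i) (ix n j)) * hfg H j := by
    intro i
    have h1 := ode_A3 hNz hode (ix n i)
    have h2 : ∑ j : Fin (n * n), ps (A3 T₁ A Nz (ix n i) (ix n j)) * hfg H j =
        ∑ q, ps (A3 T₁ A Nz (ix n i) q) * H q.1 q.2 :=
      Equiv.sum_comp (ix n) fun q => ps (A3 T₁ A Nz (ix n i) q) * H q.1 q.2
    exact h1.trans h2.symm
  -- the values of the monomials
  have hF : ∀ b : Fin δ → Option (Fin (n * n)), MvPolynomial.aeval (hfg H)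
      (yw (fun j => (MvPolynomial.X j : MvPolynomial (Fin (n * n)) (Polynomial ℚ))) b) = yw (hfg H) b := by
    intro b
    have e3 := yw_map ((MvPolynomial.aeval (R := Polynomial ℚ) (hfg H)).toRingHom :
      MvPolynomial (Fin (n * n)) (Polynomial ℚ) →* ℚ⟦X⟧)
      (fun j => (MvPolynomial.X j : MvPolynomial (Fin (n * n)) (Polynomial ℚ))) b
    refine Eq.trans e3 ?_
    congr 1
    funext j
    show MvPolynomial.aeval (hfg H) (MvPolynomial.X j) = _
    rw [MvPolynomial.aeval_X]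
  let T' : Polynomial ℚ := (Polynomial.X * T₁).map (Int.castRingHom ℚ)
  let A' : Fin (n * n) → Fin (n * n) → Polynomial ℚ := fun i j =>
    (A3 T₁ A Nz (ix n i) (ix n j)).map (Int.castRingHom ℚ)
  have hT' : T' ≠ 0 := (Polynomial.map_ne_zero_iff (Int.castRingHom ℚ).injective_int).2 hT
  have hli2 := hI m a (n * n) (hfg H) T' A' hT' hode' hNL B₀
    (fun β => yw (fun j => MvPolynomial.X j) β.1) (by
      simp only [hF]
      exact hLI) W
  simp only [hF] at hli2
  -- the system of the hyperlogarithms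
  obtain ⟨d, N2, H2, V2, hS2, hPL⟩ := hP m a L hL1 hLa W
  let s : Fin 2 → SB L := ![⟨n, N, H, V, hS⟩, ⟨d, N2, H2, V2, hS2⟩]
  have hSS := Pool.Agent.Run7.h468.CF.p_BLKL L 2 (fun j => (s j).n) (fun j => (s j).N) (fun j => (s j).H)
    (fun j => (s j).V) (fun j => (s j).h)
  obtain ⟨B₁, a₁, M₁, ha₁, hM₁, hOne⟩ := one_sys hSS (δ + 1)
  set HH := blk (fun j => (s j).n) ℚ⟦X⟧ (fun j => (s j).H) with hHH
  have hent0 : ∀ c : Fin (n * n), ∃ c', hfg HH c' = hfg H c := fun c => ent s 0 (ix n c).1 (ix n c).2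
  choose φ hφ using hent0
  have hent1 : ∀ x : Wd m W, ∃ c', hfg HH c' = hy a x.1 := by
    intro x
    obtain ⟨i, k, hik⟩ := hPL x
    obtain ⟨c, hc⟩ := ent s 1 i k
    exact ⟨c, hc.trans hik⟩
  choose ψ hψ using hent1
  let bb : B₀ × Wd m W → (Fin (δ + 1) → Option (Fin ((∑ j, (s j).n) * (∑ j, (s j).n)))) := fun p =>
    Fin.cons (some (ψ p.2)) (fun j => (p.1.1 j).map φ)
  have hbb : ∀ p, yw (hfg HH) (bb p) = yw (hfg H) p.1.1 * hy a p.2.1 := by
    intro p
    unfold yw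
    rw [Fin.prod_univ_succ, mul_comm]
    congr 1
    · refine Finset.prod_congr rfl fun j _ => ?_
      show ((Fin.cons (some (ψ p.2)) (fun j => (p.1.1 j).map φ) :
        Fin (δ + 1) → Option (Fin ((∑ j, (s j).n) * (∑ j, (s j).n)))) j.succ).elim 1 (hfg HH) = _
      rw [Fin.cons_succ]
      rcases p.1.1 j with _ | i
      · rfl
      · exact hφ i
    · show ((Fin.cons (some (ψ p.2)) (fun j => (p.1.1 j).map φ) :
        Fin (δ + 1) → Option (Fin ((∑ j, (s j).n) * (∑ j, (s j).n)))) 0).elim 1 (hfg HH) = _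
      rw [Fin.cons_zero]
      exact hψ p.2
  refine transferL hL1 ha₁ (fun p g => M₁ (bb p) g) (fun p => ?_) hli2 (fun t ht p => ?_) (fun t ht g => ?_) hOne
  · rw [← hbb p]
    exact hM₁ (bb p)
  · rw [← hbb p]
    exact Cv_yw hL1 hSS ht _
  · exact Cv_yw hL1 hSS ht _

end Pool.Agent.Run7.h160.CP
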